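import Pool.Agent.H110R3.UF.CtxA
import Pool.Agent.H110R3.UF.MainB
import Pool.Agent.H431R3.UF.Mat
import Pool.Agent.H558R3.UF_Tens
import Pool.Agent.H499R3.UF.TaskT1
import Pool.Agent.H211R3.UF.T2
import Pool.Agent.H237.UF.TaskT3
import Pool.Agent.H275R3.UF.Pos
import Pool.Agent.H710R3.UFCompl
import Pool.Agent.H358R3.UF.Schur
import Pool.Agent.H770.UF.Dual
import Pool.Agent.Helper923.UF.TaskUnit
import Pool.Agent.H110R3.UF.B1c
import Pool.Agent.H110R3.UF.B2c
import Pool.Agent.H110R3.UF.B3c
import Pool.Agent.H110R3.UF.B4c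
import Pool.Agent.H110R3.UF.B5c
import Pool.Agent.H110R3.UF.B6c
import Pool.Agent.H110R3.UF.B7c
import Pool.Agent.H110R3.UF.B8c

set_option autoImplicit false

open CategoryTheory MonoidalCategory CategoryTheory.Limits

universe v u

namespace Pool.Agent.Results.MP_7857a6_al.BraidedUnitaryGauge

open Pool.Agent.H110R3.UF

/-- **Negative answer to Q1** (the negated form holds, without the diagonality hypothesis). Let
`C` be a braided fusion category over `ℂ`, `R` a complete system of representatives of its simple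
objects and `G` a gauge in which all F-matrices are unitary. Then `C` is unitary as a braided
fusion category: there is a `ℂ`-linear braided monoidal equivalence to `C` from a braided
C*-tensor category whose braiding is unitary. -/
theorem result (C : Type u) [Category.{v} C] [Abelian C] [Linear ℂ C] [MonoidalCategory C]
    [BraidedCategory C] [IsFusion C] (R : Reps C) (G : Gauge R) (hG : G.UnitaryF) :
    IsUnitaryBraided C := by
  have : MonoidalPreadditive C := IsFusion.additive
  have : MonoidalLinear ℂ C := IsFusion.linear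
  obtain ⟨hR⟩ := IsFusion.rigid (C := C)
  obtain ⟨K⟩ := CtxA.t Pool.Agent.H358R3.UF.taskSchur Pool.Agent.H770.UF.taskDual
    Pool.Agent.Helper923.UF.taskUnit C R G hG
  exact MainB.main Pool.Agent.H431R3.UF.taskMat Pool.Agent.H558R3.UFTens.taskTens
    Pool.Agent.H499R3.UF.taskT1 Pool.Agent.H211R3.UF.taskT2 Pool.Agent.H237.UF.t
    Pool.Agent.H110R3.UF.H275.taskPos Pool.Agent.H710R3.UFCompl.taskCompl
    (fun D _ _ _ _ _ _ _ A n T hN X Y =>
      Pool.Agent.H871R3.UF.taskB6 Pool.Agent.H42R3.UF.taskB1 Pool.Agent.H110R3.UF.B3h275.taskB3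
        Pool.Agent.H957R3.UF.taskB2 (Pool.Agent.H741R4.UF.b4_aux Pool.Agent.H42R3.UF.taskB1)
        Pool.Agent.H110R3.UF.B5X448.t D A n T hN X Y)
    Pool.Agent.H36R3.UF.taskB7 Pool.Agent.H729R3.UF.taskB8 C K

end Pool.Agent.Results.MP_7857a6_al.BraidedUnitaryGauge
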