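import Pool.Agent.H110R3.UF.CtxA
import Pool.Agent.H110R3.UF.MainA
import Pool.Agent.H431R3.UF.Mat
import Pool.Agent.H558R3.UF_Tens
import Pool.Agent.H499R3.UF.TaskT1
import Pool.Agent.H211R3.UF.T2
import Pool.Agent.H237.UF.TaskT3
import Pool.Agent.H275R3.UF.Pos
import Pool.Agent.H710R3.UFCompl
import Pool.Agent.H358R3.UF.Schur
import Pool.Agent.H770.UF.Dual
import Pool.Agent.Helper923.UF.TaskUnit

set_option autoImplicit false

open CategoryTheory MonoidalCategory CategoryTheory.Limits

universe v u

namespace Pool.Agent.Results.MP_7857a6_al.UnitaryGauge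

open Pool.Agent.H110R3.UF

/-- **Positive answer to Q2** (the implication in question). Let `C` be a fusion category over
`ℂ`, `R` a complete system of representatives of its simple objects and `G` a gauge (a basis of
every space `Hom(c, a ⊗ b)`) in which all F-matrices are unitary. Then `C` is unitary: there is a
`ℂ`-linear monoidal equivalence from a C*-tensor category (C*-category with a tensor product
compatible with the adjoint and with unitary associator and unit constraints) to `C`. -/
theorem result (C : Type u) [Category.{v} C] [Abelian C] [Linear ℂ C] [MonoidalCategory C]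
    [IsFusion C] (R : Reps C) (G : Gauge R) (hG : G.UnitaryF) : IsUnitary C := by
  have : MonoidalPreadditive C := IsFusion.additive
  have : MonoidalLinear ℂ C := IsFusion.linear
  obtain ⟨K⟩ := CtxA.t Pool.Agent.H358R3.UF.taskSchur Pool.Agent.H770.UF.taskDual
    Pool.Agent.Helper923.UF.taskUnit C R G hG
  exact MainA.t Pool.Agent.H431R3.UF.taskMat Pool.Agent.H558R3.UFTens.taskTens
    Pool.Agent.H499R3.UF.taskT1 Pool.Agent.H211R3.UF.taskT2 Pool.Agent.H237.UF.t
    Pool.Agent.H110R3.UF.H275.taskPos Pool.Agent.H710R3.UFCompl.taskCompl C K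

end Pool.Agent.Results.MP_7857a6_al.UnitaryGauge
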